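import Pool.Agent.H86.IR.Targets1

/-!
# BB: integration of `log |z - b|` against the Laplacian
-/

set_option autoImplicit false

open Complex Topology Filter InnerProductSpace MeasureTheory Laplacian Metric

namespace Pool.Agent.H86.IR

lemma bb_lap_cont {φ : ℂ → ℝ} (hφ : ContDiff ℝ 2 φ) : Continuous (Δ φ) := by
  rw [InnerProductSpace.laplacian_eq_iteratedFDeriv_complexPlane]
  have h : Continuous (iteratedFDeriv ℝ 2 φ) := hφ.continuous_iteratedFDeriv le_rfl
  fun_prop

lemma bb_lap_zero {φ : ℂ → ℝ} {z : ℂ} (hz : z ∉ tsupport φ) : (Δ φ) z = 0 := by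
  have h1 : φ =ᶠ[𝓝 z] fun _ => (0 : ℝ) := by
    have := notMem_tsupport_iff_eventuallyEq.1 hz
    exact this
  have h2 := (InnerProductSpace.laplacian_congr_nhds h1).eq_of_nhds
  rw [h2, InnerProductSpace.laplacian_const]
  rfl

/-- outside of `K` the function is harmonic -/
lemma bb_lap_out {K : Set ℂ} {b : ℂ} {w : ℂ → ℝ} (hK : IsClosed K) (hb : b ∈ K)
    (hw : ∀ z, z ∉ K → w z = Real.log ‖z - b‖) {z : ℂ} (hz : z ∉ K) : (Δ w) z = 0 := by
  have h1 : w =ᶠ[𝓝 z] fun z => Real.log ‖z - b‖ := by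
    filter_upwards [hK.isOpen_compl.mem_nhds hz] with y hy using hw y hy
  have h2 := (InnerProductSpace.laplacian_congr_nhds h1).eq_of_nhds
  rw [h2]
  have hzb : z ≠ b := fun h => hz (h ▸ hb)
  have h3 : HarmonicAt (fun z => Real.log ‖z - b‖) z := by
    have ha : AnalyticAt ℂ (fun z : ℂ => z - b) z := analyticAt_id.sub analyticAt_const
    exact ha.harmonicAt_log_norm (sub_ne_zero.2 hzb)
  exact h3.2.eq_of_nhds

theorem bb (hFS : T_FS) (hIP : T_IP) : T_BB := by
  intro K b w hK hb hw2 hw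
  obtain ⟨R, hR0, hR⟩ : ∃ R : ℝ, 0 < R ∧ K ⊆ ball 0 R := by
    obtain ⟨R, hR⟩ := hK.isBounded.subset_ball 0
    exact ⟨max R 1, lt_max_of_lt_right one_pos, hR.trans (ball_subset_ball (le_max_left _ _))⟩
  let χ : ContDiffBump (0 : ℂ) := ⟨R, R + 1, hR0, by linarith⟩
  set u : ℂ → ℝ := fun z => χ z * w z with hu
  have hu2 : ContDiff ℝ 2 u := χ.contDiff.mul hw2
  have hus : HasCompactSupport u := χ.hasCompactSupport.mul_right
  have hone : ∀ z ∈ ball (0 : ℂ) R, χ z = 1 := fun z hz =>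
    χ.one_of_mem_closedBall (ball_subset_closedBall hz)
  have huw : ∀ z ∈ ball (0 : ℂ) R, u z = w z := by
    intro z hz
    simp only [hu]
    rw [hone z hz, one_mul]
  have hΔuw : ∀ z ∈ ball (0 : ℂ) R, (Δ u) z = (Δ w) z := by
    intro z hz
    have h1 : u =ᶠ[𝓝 z] w := by
      filter_upwards [isOpen_ball.mem_nhds hz] with y hy using huw y hy
    exact (InnerProductSpace.laplacian_congr_nhds h1).eq_of_nhds
  have hout : ∀ z, z ∉ K → (Δ w) z = 0 := fun z hz => bb_lap_out hK.isClosed hb hw hz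
  have cu := bb_lap_cont hu2
  have cw := bb_lap_cont hw2
  have su : HasCompactSupport (Δ u) := HasCompactSupport.intro hus fun z hz => bb_lap_zero hz
  have sw : HasCompactSupport (Δ w) := HasCompactSupport.intro hK hout
  obtain ⟨hi, hval⟩ := hFS u hu2 hus b
  -- the difference of the Laplacians
  have hm : ∀ z, Real.log ‖z - b‖ * (Δ u) z - Real.log ‖z - b‖ * (Δ w) z =
      w z * (Δ u) z - w z * (Δ w) z := by
    intro z
    by_cases hz : z ∈ K
    · rw [hΔuw z (hR hz)]; ring
    · rw [hw z hz]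
  have i1 : Integrable (fun z => w z * (Δ u) z) :=
    (hw2.continuous.mul cu).integrable_of_hasCompactSupport su.mul_left
  have i2 : Integrable (fun z => w z * (Δ w) z) :=
    (hw2.continuous.mul cw).integrable_of_hasCompactSupport sw.mul_left
  have heq : (fun z => Real.log ‖z - b‖ * (Δ w) z) = fun z =>
      Real.log ‖z - b‖ * (Δ u) z - (w z * (Δ u) z - w z * (Δ w) z) := by
    funext z
    have := hm z
    linarith
  rw [heq]
  have i3 : Integrable (fun z => w z * (Δ u) z - w z * (Δ w) z) := i1.sub i2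
  refine ⟨hi.sub i3, ?_⟩
  rw [integral_sub hi i3, integral_sub i1 i2, hval, ← hIP u w hu2 hus hw2]
  have h5 : ∫ z, u z * (Δ w) z = ∫ z, w z * (Δ w) z := by
    congr 1
    funext z
    by_cases hz : z ∈ K
    · rw [huw z (hR hz)]
    · rw [hout z hz, mul_zero, mul_zero]
  rw [h5, sub_self, sub_zero, huw b (hR hb)]

end Pool.Agent.H86.IR
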