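import Pool.Agent.H86.IR.Targets2

/-!
# C2A: a large gap at the left end
-/

set_option autoImplicit false

open Finset

namespace Pool.Agent.H86.IR

lemma c2a_num {g : ℝ} (hg : 8 ≤ g) : 2 + 2 * Real.log (3 * Real.pi / 4) + 2 * Real.log g - g ≤ 0 := by
  have hpi := Real.pi_pos
  have h1 : Real.log g ≤ Real.log 8 + (g / 8 - 1) := by
    have := Real.log_le_sub_one_of_pos (show 0 < g / 8 by linarith)
    rw [Real.log_div (by linarith) (by norm_num)] at this
    linarith
  have h2 : Real.log (3 * Real.pi / 4) + Real.log 8 ≤ 3 := by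
    rw [← Real.log_mul (by positivity) (by norm_num), Real.log_le_iff_le_exp (by positivity)]
    have h3 : Real.exp 3 = Real.exp 1 ^ 3 := by
      rw [← Real.exp_nat_mul]; norm_num
    rw [h3]
    have h4 : (2.7182818283 : ℝ) ^ 3 ≤ Real.exp 1 ^ 3 :=
      pow_le_pow_left₀ (by norm_num) Real.exp_one_gt_d9.le 3
    have h5 : 3 * Real.pi / 4 * 8 ≤ 19 := by
      have := Real.pi_lt_d2
      linarith
    refine h5.trans (le_trans (by norm_num) h4)
  linarith

theorem c2a (hEIB : T_EIB) : T_C2A := by
  intro n hn hPB x γ hE hlen hγ hgap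
  obtain ⟨N, rfl⟩ : ∃ N, n = N + 1 := ⟨n - 1, by omega⟩
  have hN : 2 ≤ N := by omega
  simp only [Nat.add_sub_cancel] at hPB hlen hgap
  have hNr : (2 : ℝ) ≤ N := by exact_mod_cast hN
  have hN0 : (0 : ℝ) < N := by linarith
  push_cast at hgap
  have e0 : ((N : ℝ) + 1 - 1) = N := by ring
  rw [e0] at hgap
  obtain ⟨h2, h3, -⟩ := hEIB _ x γ hE |>.1 |> fun a => (⟨a, (hEIB _ x γ hE).2.1, trivial⟩ :
    _ ∧ _ ∧ True)
  have hx01 : x 0 < x 1 := hE.1 0 1 (by norm_num) (by omega)
  have hx1N : x 1 < x N := hE.1 1 N (by omega) (by omega)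
  set L := x N - x 0 with hL
  have hL0 : 0 < L := by simp only [hL]; linarith
  have hL' : 0 < x N - x 1 := by linarith
  -- the omission of the pole `x 0`
  obtain ⟨hE', hsum⟩ := h3 0 (by omega)
  simp only [Nat.add_sub_cancel] at hE' hsum
  have hl0 : 0 < L / (x N - x 1) := div_pos hL0 hL'
  have hE'' := (hEIB _ _ _ hE').2.2.1 (L / (x N - x 1)) hl0
  have hskip : ∀ k, skip 0 x k = x (k + 1) := fun k => by simp [skip]
  have hP := hPB _ _ hE'' (by
    simp only [hskip]
    rw [← mul_sub, show N - 1 + 1 = N by omega, zero_add, div_mul_cancel₀ _ hL'.ne']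
    exact hlen)
  rw [sum_add_distrib, hsum, sum_const, card_range, nsmul_eq_mul] at hP
  set g := N * (x 1 - x 0) / L with hg
  have hg8 : 8 ≤ g := by
    rw [hg, le_div_iff₀ hL0]; exact hgap
  -- the logarithm of the scaling factor
  have h4 : -g ≥ -(N * Real.log (L / (x N - x 1))) := by
    have h5 : Real.log ((x N - x 1) / L) ≤ (x N - x 1) / L - 1 :=
      Real.log_le_sub_one_of_pos (div_pos hL' hL0)
    have h6 : Real.log ((x N - x 1) / L) = -Real.log (L / (x N - x 1)) := by
      rw [← Real.log_inv, inv_div]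
    have h7 : (x N - x 1) / L - 1 = -(g / N) := by
      rw [hg]; field_simp; simp only [hL]; ring
    rw [h6, h7] at h5
    have h8 : N * (g / N) ≤ N * Real.log (L / (x N - x 1)) :=
      mul_le_mul_of_nonneg_left (by linarith) hN0.le
    rw [mul_div_cancel₀ _ hN0.ne'] at h8
    linarith
  -- the radius of the first domain
  have h5 := h2 0 1 (by norm_num) (by omega)
  have h6 := hγ 1 (by omega)
  have hpi := Real.pi_pos
  have h7 : Real.log (x 1 - x 0) ≤ Real.log (2 * g / N) := by
    refine Real.log_le_log (by linarith) ?_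
    rw [le_div_iff₀ hN0, hg]
    rw [← mul_div_assoc, le_div_iff₀ hL0]
    have : 0 < (x 1 - x 0) * N := mul_pos (by linarith) hN0
    nlinarith
  have hg0 : 0 < g := by linarith
  have h8 : Real.log (2 * g / N) = Real.log 2 + Real.log g - Real.log N := by
    rw [Real.log_div (by positivity) hN0.ne', Real.log_mul (by norm_num) hg0.ne']
  have h9 : Real.log (4 / (Real.pi * N)) = Real.log 4 - Real.log Real.pi - Real.log N := by
    rw [Real.log_div (by norm_num) (by positivity), Real.log_mul hpi.ne' hN0.ne']; ring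
  have hn0 : (0 : ℝ) < N + 1 := by linarith
  have h10 : Real.log (4 / (Real.pi * (N + 1))) =
      Real.log 4 - Real.log Real.pi - Real.log (N + 1) := by
    rw [Real.log_div (by norm_num) (by positivity), Real.log_mul hpi.ne' hn0.ne']; ring
  have h11 : N * (Real.log (N + 1) - Real.log N) ≤ 1 := by
    rw [← Real.log_div hn0.ne' hN0.ne']
    have := Real.log_le_sub_one_of_pos (div_pos hn0 hN0)
    calc N * Real.log ((N + 1) / N) ≤ N * ((N + 1) / N - 1) :=
          mul_le_mul_of_nonneg_left this hN0.le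
      _ = 1 := by field_simp; ring
  have h12 : Real.log (N + 1) - Real.log N ≤ Real.log 3 - Real.log 2 := by
    rw [← Real.log_div hn0.ne' hN0.ne', ← Real.log_div (by norm_num) (by norm_num)]
    refine Real.log_le_log (by positivity) ?_
    rw [div_le_div_iff₀ hN0 (by norm_num)]
    linarith
  have h13 := c2a_num hg8
  have h14 : Real.log (3 * Real.pi / 4) = Real.log 3 + Real.log Real.pi - Real.log 4 := by
    rw [Real.log_div (by positivity) (by norm_num), Real.log_mul (by norm_num) hpi.ne']
  have h15 : Real.log 4 = 2 * Real.log 2 := by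
    rw [show (4 : ℝ) = 2 ^ 2 by norm_num, Real.log_pow]; norm_num
  push_cast at h6 ⊢
  rw [h9] at hP
  rw [h10] at h6 ⊢
  rw [h14] at h13
  rw [h8] at h7
  linear_combination hP + h5 + 2 * h7 + h6 + h4 + h11 + 2 * h12 + h13

end Pool.Agent.H86.IR
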